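import Pool.Agent.N165.LC.Asm2
import Pool.Agent.N165.LC.Hom

/-!
# MP_430249_ag: there is no linear vanishing bound for `H^i_𝔪(R/I^n)` in general

`Cech.length I p` (file `Pool/Agent/N165/LC/Cech.lean`) is the length of the local cohomology module
`H^p_𝔪(R/I)` over `R = k[X_i : i ∈ ι]`, `𝔪 = (X_i)`, defined by the Čech complex;
`Cech.GradedNonzero I p j` says `H^p_𝔪(R/I)_j ≠ 0`.
-/

namespace Pool.Agent.Results.MP_430249_ag.NoLinearBound

open Pool.Agent.N165 Pool.Agent.N165.LC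

/-- There are a polynomial ring `R` over `k = 𝔽₂` in finitely many variables, a homogeneous ideal
`I` and `i ≥ 0` such that `H^i_𝔪(R/I^n)` has finite length for all `n ≥ 1`, but for every integer
`α` there are arbitrarily large `n` with `H^i_𝔪(R/I^n)_j ≠ 0` for some `j < -α n`. -/
theorem result : ∃ (ι : Type) (_ : Fintype ι) (_ : LinearOrder ι) (i : ℕ)
    (I : Ideal (MvPolynomial ι (ZMod 2))), Cech.IsHomog I ∧
    (∀ n : ℕ, 1 ≤ n → Cech.length (I ^ n) i ≠ ⊤) ∧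
    ∀ (α : ℤ) (N : ℕ), ∃ n : ℕ, N ≤ n ∧ ∃ j : ℤ, j < -α * n ∧
      Cech.GradedNonzero (I ^ n) i j := by
  obtain ⟨e, he, h1, h2⟩ := graded_nonzero
  have hcmp : ∀ J : Ideal (PR 0), Cech.length J 5 =
      Module.length (PR 0) (LocalCohomology.H (V 0) (ZMod 2) (PR 0 ⧸ J) 5) :=
    fun J => Cech.lengthH_cmp (MvPolynomial.X : V 0 → PR 0) (PR 0 ⧸ J) 5
  refine ⟨V 0, inferInstance, ordV 0, 5, II 0 e, II_homog 0 e, ?_, ?_⟩
  · intro n hn
    obtain ⟨ℓ, hℓ⟩ := h1 n hn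
    rw [hcmp, hℓ]
    exact ENat.natCast_ne_top ℓ
  · intro α N
    obtain ⟨a, ha⟩ : ∃ a : ℕ, α ≤ a := ⟨α.toNat, Int.self_le_toNat α⟩
    -- `n = 6 (a + N + 1)`, `l = 6 (a + N + 1)^2`
    refine ⟨6 * (a + N + 1), by omega, -((6 * (a + N + 1) ^ 2 : ℕ) : ℤ) - 2, ?_, ?_⟩
    · push_cast
      have h0 : (0 : ℤ) ≤ a := Int.natCast_nonneg a
      have h3 : (0 : ℤ) ≤ N := Int.natCast_nonneg N
      nlinarith [mul_le_mul_of_nonneg_right ha (show (0 : ℤ) ≤ 6 * ((a : ℤ) + N + 1) by positivity)]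
    · have h8 : 1 ≤ (a + N + 1) ^ 2 := Nat.one_le_pow _ _ (by omega)
      apply Cech.graded_cmp
      apply h2 _ (by omega) _ (by omega)
      have hbn : 6 * (a + N + 1) ≤ 2 * e * (6 * (a + N + 1)) - 1 := by
        have h4 : 1 * (6 * (a + N + 1)) ≤ e * (6 * (a + N + 1)) := Nat.mul_le_mul_right _ he
        have h5 : 2 * e * (6 * (a + N + 1)) = 2 * (e * (6 * (a + N + 1))) := by ring
        omega
      have h6 : (6 * (a + N + 1)) ^ 2 ≤ (2 * e * (6 * (a + N + 1)) - 1) ^ 2 :=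
        Nat.pow_le_pow_left hbn 2
      have h7 : 6 * (6 * (a + N + 1) ^ 2) = (6 * (a + N + 1)) ^ 2 := by ring
      omega

end Pool.Agent.Results.MP_430249_ag.NoLinearBound
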